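import Pool.Agent.H19M.Stm

set_option autoImplicit false

/-! Piece ADD of project H19M. -/

open Filter Topology Pool.Agent.N709.UM

universe u

namespace Pool.Agent.H19M

theorem add (hpwz : S_PWZ.{u}) : S_ADD.{u} := by
  classical
  intro H _ _ _ ρ hρ F hF κ c c' l l' ε hε hI hI'
  obtain ⟨E, hE⟩ := hI
  obtain ⟨E', hE'⟩ := hI'
  obtain ⟨t, ht⟩ : ∃ t : ℝ, t = ε / 8 := ⟨_, rfl⟩
  have ht0 : 0 < t := by rw [ht]; linarith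
  have N := hρ.pn
  have hinv : ∀ m : ℤ, ∀ᶠ x in F, ∀ d, ρ (x ^ m * d * (x ^ m)⁻¹) ≤ ρ d + t ∧
      ρ ((x ^ m)⁻¹ * d * x ^ m) ≤ ρ d + t := fun m => hF.pow m _ (hF.inv t ht0)
  refine ⟨(E ×ˢ E').image (fun p => (p.2.1 * p.1.1, p.1.2 + p.2.2)), ?_⟩
  have hx : ∀ᶠ x in F, ∀ e' ∈ E', ∀ d, ρ ((x ^ (c' + κ * e'.2))⁻¹ * d * x ^ (c' + κ * e'.2)) ≤
      ρ d + t := by
    rw [Filter.eventually_all_finset]
    intro e' _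
    exact (hinv _).mono fun x h d => (h d).2
  filter_upwards [hE, hE', hx] with x h1 h2 h3
  obtain ⟨e, he, hb⟩ := h1
  obtain ⟨e', he', hb'⟩ := h2
  refine ⟨(e'.1 * e.1, e.2 + e'.2), Finset.mem_image.2 ⟨(e, e'),
    Finset.mem_product.2 ⟨he, he'⟩, rfl⟩, ?_⟩
  intro hcon
  have hm := hF.mul _ hcon
  have hcom := hF.pow κ _ (hF.com t ht0 ((x ^ (c' + κ * e'.2))⁻¹))
  obtain ⟨b, hb1, hb2, hb3, hb4⟩ := (hb.and_eventually (hm.and (hcom.and (hinv κ)))).exists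
  obtain ⟨b', hc1, hc2, hc3, hc4⟩ := (hb'.and_eventually
    (hb2.and ((hpwz H ρ hρ F hF b κ t ht0).and (hinv κ)))).exists
  apply hc2
  show ρ (e'.1 * e.1 * x ^ (c + c' + κ * (e.2 + e'.2)) * (b * b') ^ κ) < l + l' + ε
  have hz : x ^ (c + c' + κ * (e.2 + e'.2)) = x ^ (c + κ * e.2) * x ^ (c' + κ * e'.2) := by
    rw [← zpow_add]
    congr 1
    ring
  rw [hz]
  have k1 := h3 e' he'
  have k2 := hb3.2
  have k3 := hc3.1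
  have k4 := hc4
  have k5 := hb4
  simp only [inv_inv] at k2
  revert k1 k2 k3 k4 k5 hb1 hc1
  generalize x ^ (c + κ * e.2) = X
  generalize x ^ (c' + κ * e'.2) = Y
  generalize (b * b') ^ κ = P
  generalize b ^ κ = B
  generalize b' ^ κ = B'
  intro hb1 hc1 k1 k3 k4 k5 k2
  -- `w`, `g`
  have e1 : e'.1 * e.1 * (X * Y) * P = (e'.1 * Y * B') *
      (B'⁻¹ * (Y⁻¹ * (e.1 * X * B) * Y) * B') * (B'⁻¹ * (Y⁻¹ * B⁻¹ * Y * B) * B') *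
      (B'⁻¹ * (B⁻¹ * (P * (B * B')⁻¹) * B) * B') := by
    group
  have m1 := N.mul ((e'.1 * Y * B') * (B'⁻¹ * (Y⁻¹ * (e.1 * X * B) * Y) * B') *
    (B'⁻¹ * (Y⁻¹ * B⁻¹ * Y * B) * B')) (B'⁻¹ * (B⁻¹ * (P * (B * B')⁻¹) * B) * B')
  have m2 := N.mul ((e'.1 * Y * B') * (B'⁻¹ * (Y⁻¹ * (e.1 * X * B) * Y) * B'))
    (B'⁻¹ * (Y⁻¹ * B⁻¹ * Y * B) * B')
  have m3 := N.mul (e'.1 * Y * B') (B'⁻¹ * (Y⁻¹ * (e.1 * X * B) * Y) * B')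
  have n1 := (k4 (Y⁻¹ * (e.1 * X * B) * Y)).2
  have n2 := k1 (e.1 * X * B)
  have n3 := (k4 (Y⁻¹ * B⁻¹ * Y * B)).2
  have n4 : ρ (Y⁻¹ * B⁻¹ * Y * B) < t := by
    rw [← N.inv]
    have : (Y⁻¹ * B⁻¹ * Y * B)⁻¹ = B⁻¹ * Y⁻¹ * B * Y := by group
    rw [this]
    exact k2
  have n5 := (k4 (B⁻¹ * (P * (B * B')⁻¹) * B)).2
  have n6 := (k5 (P * (B * B')⁻¹)).2
  rw [e1]
  have : ε = 8 * t := by rw [ht]; ring
  linarith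

end Pool.Agent.H19M
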